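import Pool.Agent.Run7.h283.MK.Supp
import Mathlib.NumberTheory.NumberField.DedekindZeta

/-!
# Densities of sets of ideals defined by divisibility by primes
-/

set_option autoImplicit false

namespace Run7.h283.UE

open NumberField IsDedekindDomain Finset Filter Topology Pool.Agent.H691R3 Pool.Agent.TH876.Loc
open Run7.h283.MK

section
variable (K : Type) [Field K] [NumberField K]

theorem IdN_finite (N : ℝ) : {n : Ideal (𝓞 K) | n ≠ ⊥ ∧ (Ideal.absNorm n : ℝ) ≤ N}.Finite := by
  refine (Ideal.finite_setOfPred_absNorm_le (S := 𝓞 K) ⌈N⌉₊).subset ?_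
  intro I hI
  have h1 : (Ideal.absNorm I : ℝ) ≤ ⌈N⌉₊ := le_trans hI.2 (Nat.le_ceil N)
  exact_mod_cast h1

/-- the nonzero ideals of norm at most `N` -/
noncomputable def IF (N : ℝ) : Finset (Ideal (𝓞 K)) := (IdN_finite K N).toFinset

variable {K} in
theorem mem_IF {N : ℝ} {n : Ideal (𝓞 K)} :
    n ∈ IF K N ↔ n ≠ ⊥ ∧ (Ideal.absNorm n : ℝ) ≤ N := by
  unfold IF
  rw [Set.Finite.mem_toFinset]
  rfl

/-- their number -/
noncomputable def cnt (N : ℝ) : ℝ := ((IF K N).card : ℝ)

theorem cnt_nonneg (N : ℝ) : 0 ≤ cnt K N := Nat.cast_nonneg _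

theorem IF_mono {M N : ℝ} (h : M ≤ N) : IF K M ⊆ IF K N := by
  intro n hn
  rw [mem_IF] at hn ⊢
  exact ⟨hn.1, hn.2.trans h⟩

theorem cnt_mono {M N : ℝ} (h : M ≤ N) : cnt K M ≤ cnt K N := by
  unfold cnt
  exact_mod_cast Finset.card_le_card (IF_mono K h)

theorem cnt_zero {N : ℝ} (h : N < 1) : cnt K N = 0 := by
  unfold cnt
  rw [Nat.cast_eq_zero, Finset.card_eq_zero, Finset.eq_empty_iff_forall_notMem]
  intro n hn
  rw [mem_IF] at hn
  have := one_le_absNorm hn.1
  linarith [hn.2]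

theorem top_mem {N : ℝ} (h : 1 ≤ N) : (⊤ : Ideal (𝓞 K)) ∈ IF K N := by
  rw [mem_IF]
  refine ⟨top_ne_bot, ?_⟩
  rw [Ideal.absNorm_top, Nat.cast_one]
  exact h

theorem one_le_cnt {N : ℝ} (h : 1 ≤ N) : 1 ≤ cnt K N := by
  unfold cnt
  exact_mod_cast Finset.card_pos.2 ⟨_, top_mem K h⟩

theorem cnt_tendsto : Tendsto (fun N : ℝ => cnt K N / N) atTop (𝓝 (dedekindZeta_residue K)) := by
  have h := Ideal.tendsto_norm_le_div_atTop₀ K
  rw [dedekindZeta_residue_def]
  refine h.congr fun N => ?_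
  congr 1
  unfold cnt
  have e : {I : nonZeroDivisors (Ideal (𝓞 K)) // (Ideal.absNorm (I : Ideal (𝓞 K)) : ℝ) ≤ N} ≃
      {n // n ∈ IF K N} :=
    { toFun := fun I => ⟨I.1.1, mem_IF.2 ⟨nonZeroDivisors.ne_zero I.1.2, I.2⟩⟩
      invFun := fun n => ⟨⟨n.1, mem_nonZeroDivisors_of_ne_zero (mem_IF.1 n.2).1⟩, (mem_IF.1 n.2).2⟩
      left_inv := fun I => by simp
      right_inv := fun n => by simp }
  rw [Nat.card_congr e, Nat.card_eq_fintype_card, Fintype.card_coe]

theorem cnt_le : ∃ C : ℝ, 0 < C ∧ ∀ N : ℝ, 0 ≤ N → cnt K N ≤ C * N := by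
  have hκ := dedekindZeta_residue_pos K
  have h1 : ∀ᶠ N : ℝ in atTop, cnt K N / N < dedekindZeta_residue K + 1 :=
    (cnt_tendsto K).eventually (gt_mem_nhds (by linarith))
  obtain ⟨N1, hN1⟩ := (h1.and (eventually_ge_atTop 1)).exists_forall_of_atTop
  have hN11 : 1 ≤ N1 := (hN1 N1 le_rfl).2
  refine ⟨cnt K N1 + dedekindZeta_residue K + 1, by have := cnt_nonneg K N1; positivity,
    fun N hN => ?_⟩
  have hc := cnt_nonneg K N1
  rcases lt_or_ge N 1 with h | h
  · rw [cnt_zero K h]
    positivity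
  rcases lt_or_ge N N1 with h2 | h2
  · have h3 := cnt_mono K h2.le
    nlinarith
  · have h3 := (hN1 N h2).1
    rw [div_lt_iff₀ (by linarith)] at h3
    nlinarith

theorem cnt_ge : ∃ c : ℝ, 0 < c ∧ ∀ N : ℝ, 1 ≤ N → c * N ≤ cnt K N := by
  have hκ := dedekindZeta_residue_pos K
  have h1 : ∀ᶠ N : ℝ in atTop, dedekindZeta_residue K / 2 < cnt K N / N :=
    (cnt_tendsto K).eventually (lt_mem_nhds (by linarith))
  obtain ⟨N1, hN1⟩ := (h1.and (eventually_ge_atTop 1)).exists_forall_of_atTop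
  have hN11 : 1 ≤ N1 := (hN1 N1 le_rfl).2
  refine ⟨min (dedekindZeta_residue K / 2) (1 / N1), lt_min (by positivity) (by positivity),
    fun N hN => ?_⟩
  rcases lt_or_ge N N1 with h2 | h2
  · have h3 := one_le_cnt K hN
    have h4 : min (dedekindZeta_residue K / 2) (1 / N1) * N ≤ 1 / N1 * N :=
      mul_le_mul_of_nonneg_right (min_le_right _ _) (by linarith)
    have h5 : 1 / N1 * N ≤ 1 := by
      rw [one_div, ← div_eq_inv_mul, div_le_one (by linarith)]
      exact h2.le
    linarith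
  · have h3 := (hN1 N h2).1
    rw [lt_div_iff₀ (by linarith)] at h3
    have h4 : min (dedekindZeta_residue K / 2) (1 / N1) * N ≤ dedekindZeta_residue K / 2 * N :=
      mul_le_mul_of_nonneg_right (min_le_left _ _) (by linarith)
    linarith

open Classical in
/-- the multiples of an ideal -/
theorem card_dvd {r : Ideal (𝓞 K)} (hr : r ≠ ⊥) (N : ℝ) :
    (((IF K N).filter fun n => r ∣ n).card : ℝ) = cnt K (N / (Ideal.absNorm r : ℝ)) := by
  have hp := absNorm_pos hr
  have h1 : ((IF K N).filter fun n => r ∣ n) =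
      (IF K (N / (Ideal.absNorm r : ℝ))).image fun J => r * J := by
    ext n
    rw [Finset.mem_filter, Finset.mem_image, mem_IF]
    constructor
    · rintro ⟨⟨h1, h2⟩, J, rfl⟩
      refine ⟨J, ?_, rfl⟩
      rw [mem_IF]
      refine ⟨?_, ?_⟩
      · rintro rfl
        exact h1 (by rw [Ideal.mul_bot])
      · rw [map_mul, Nat.cast_mul] at h2
        rw [le_div_iff₀ hp]
        linarith
    · rintro ⟨J, hJ, rfl⟩
      rw [mem_IF] at hJ
      refine ⟨⟨mul_ne_zero hr hJ.1, ?_⟩, Dvd.intro _ rfl⟩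
      have h2 := hJ.2
      rw [le_div_iff₀ hp] at h2
      rw [map_mul, Nat.cast_mul]
      linarith
  have hinj : Set.InjOn (fun J => r * J) (IF K (N / (Ideal.absNorm r : ℝ))) :=
    fun J _ J' _ h => mul_left_cancel₀ hr h
  rw [h1, Finset.card_image_of_injOn hinj]
  rfl

open Classical in
/-- the set of the nonzero ideals with the property `P` has the natural density `δ` -/
def HasDens (P : Ideal (𝓞 K) → Prop) (δ : ℝ) : Prop :=
  Tendsto (fun N : ℝ => (((IF K N).filter P).card : ℝ) / cnt K N) atTop (𝓝 δ)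

end

variable {K : Type} [Field K] [NumberField K]

theorem cnt_eventually_pos : ∀ᶠ N : ℝ in atTop, 0 < cnt K N := by
  filter_upwards [eventually_ge_atTop 1] with N hN
  linarith [one_le_cnt K hN]

theorem tendsto_cnt_div {r : ℝ} (hp : 0 < r) :
    Tendsto (fun N : ℝ => cnt K (N / r) / cnt K N) atTop (𝓝 r⁻¹) := by
  have hκ := dedekindZeta_residue_pos K
  have h1 : Tendsto (fun N : ℝ => cnt K (N / r) / (N / r)) atTop
      (𝓝 (dedekindZeta_residue K)) :=
    (cnt_tendsto K).comp (tendsto_id.atTop_div_const hp)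
  have h2 := (h1.div (cnt_tendsto K) hκ.ne').mul_const r⁻¹
  rw [div_self hκ.ne', one_mul] at h2
  refine h2.congr' ?_
  filter_upwards [eventually_ge_atTop 1, cnt_eventually_pos (K := K)] with N hN hc
  simp only [Pi.div_apply]
  have hN0 : 0 < N := by linarith
  field_simp

theorem hasDens_dvd {r : Ideal (𝓞 K)} (hr : r ≠ ⊥) :
    HasDens K (fun n => r ∣ n) (Ideal.absNorm r : ℝ)⁻¹ := by
  unfold HasDens
  refine (tendsto_cnt_div (K := K) (absNorm_pos hr)).congr fun N => ?_
  rw [card_dvd K hr]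

theorem HasDens.nonneg {P : Ideal (𝓞 K) → Prop} {a : ℝ} (h : HasDens K P a) : 0 ≤ a :=
  ge_of_tendsto' h fun N => div_nonneg (Nat.cast_nonneg _) (cnt_nonneg K N)

theorem HasDens.congr {P Q : Ideal (𝓞 K) → Prop} {a : ℝ} (h : HasDens K P a)
    (hPQ : ∀ n, n ≠ ⊥ → (P n ↔ Q n)) : HasDens K Q a := by
  classical
  unfold HasDens at h ⊢
  refine h.congr fun N => ?_
  congr 3
  refine Finset.filter_congr fun n hn => ?_
  rw [mem_IF] at hn
  exact hPQ n hn.1

theorem HasDens.sub {P Q : Ideal (𝓞 K) → Prop} {a b : ℝ} (hP : HasDens K P a)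
    (hQ : HasDens K Q b) (hQP : ∀ n, Q n → P n) : HasDens K (fun n => P n ∧ ¬ Q n) (a - b) := by
  classical
  unfold HasDens at hP hQ ⊢
  refine (hP.sub hQ).congr fun N => ?_
  rw [← sub_div]
  congr 1
  have h1 : ((IF K N).filter P).card = ((IF K N).filter Q).card +
      ((IF K N).filter fun n => P n ∧ ¬ Q n).card := by
    rw [← Finset.card_union_of_disjoint]
    · congr 1
      ext n
      rw [Finset.mem_union, Finset.mem_filter, Finset.mem_filter, Finset.mem_filter]
      constructor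
      · rintro ⟨h1, h2⟩
        by_cases hq : Q n
        · exact Or.inl ⟨h1, hq⟩
        · exact Or.inr ⟨h1, h2, hq⟩
      · rintro (⟨h1, h2⟩ | ⟨h1, h2, _⟩)
        · exact ⟨h1, hQP n h2⟩
        · exact ⟨h1, h2⟩
    · rw [Finset.disjoint_left]
      intro n hn hn'
      exact (Finset.mem_filter.1 hn').2.2 (Finset.mem_filter.1 hn).2
  rw [h1, Nat.cast_add, add_sub_cancel_left]
  congr!

theorem hasDens_false : HasDens K (fun _ => False) 0 := by
  classical
  unfold HasDens
  simp only [Finset.filter_false, Finset.card_empty, Nat.cast_zero, zero_div]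
  exact tendsto_const_nhds

theorem hasDens_true : HasDens K (fun _ => True) 1 := by
  classical
  unfold HasDens
  refine tendsto_const_nhds.congr' ?_
  filter_upwards [cnt_eventually_pos (K := K)] with N hN
  rw [Finset.filter_true]
  unfold cnt at hN ⊢
  rw [div_self hN.ne']

theorem HasDens.or {P Q : Ideal (𝓞 K) → Prop} {a b : ℝ} (hP : HasDens K P a)
    (hQ : HasDens K Q b) (hPQ : ∀ n, P n → ¬ Q n) : HasDens K (fun n => P n ∨ Q n) (a + b) := by
  classical
  unfold HasDens at hP hQ ⊢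
  refine (hP.add hQ).congr fun N => ?_
  rw [← add_div, ← Nat.cast_add, ← Finset.card_union_of_disjoint]
  · congr 3
    ext n
    simp only [Finset.mem_union, Finset.mem_filter]
    tauto
  · rw [Finset.disjoint_left]
    intro n hn hn'
    exact hPQ n (Finset.mem_filter.1 hn).2 (Finset.mem_filter.1 hn').2

theorem HasDens.finset {α : Type*} (s : Finset α) (P : α → Ideal (𝓞 K) → Prop) (a : α → ℝ)
    (h : ∀ i ∈ s, HasDens K (P i) (a i)) (hd : ∀ i ∈ s, ∀ j ∈ s, ∀ n, P i n → P j n → i = j) :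
    HasDens K (fun n => ∃ i ∈ s, P i n) (∑ i ∈ s, a i) := by
  classical
  induction s using Finset.induction_on with
  | empty =>
    rw [Finset.sum_empty]
    exact hasDens_false.congr fun n _ => by simp
  | insert i s hi ih =>
    rw [Finset.sum_insert hi]
    have h1 := ih (fun j hj => h j (Finset.mem_insert_of_mem hj)) fun j hj l hl =>
      hd j (Finset.mem_insert_of_mem hj) l (Finset.mem_insert_of_mem hl)
    have h2 := (h i (Finset.mem_insert_self _ _)).or h1 (by
      rintro n hn ⟨j, hj, hjn⟩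
      have := hd i (Finset.mem_insert_self _ _) j (Finset.mem_insert_of_mem hj) n hn hjn
      rw [this] at hi
      exact hi hj)
    refine h2.congr fun n _ => ?_
    simp only [Finset.mem_insert]
    constructor
    · rintro (h | ⟨j, hj, h⟩)
      · exact ⟨i, Or.inl rfl, h⟩
      · exact ⟨j, Or.inr hj, h⟩
    · rintro ⟨j, hj | hj, h5⟩
      · left
        rw [← hj]
        exact h5
      · exact Or.inr ⟨j, hj, h5⟩

theorem HasDens.unique {P : Ideal (𝓞 K) → Prop} {a b : ℝ} (h : HasDens K P a)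
    (h' : HasDens K P b) : a = b :=
  tendsto_nhds_unique h h'

theorem HasDens.mono {P Q : Ideal (𝓞 K) → Prop} {a b : ℝ} (h : HasDens K P a)
    (h' : HasDens K Q b) (hPQ : ∀ n, n ≠ ⊥ → P n → Q n) : a ≤ b := by
  classical
  refine le_of_tendsto_of_tendsto' h h' fun N => ?_
  refine div_le_div_of_nonneg_right ?_ (cnt_nonneg K N)
  exact_mod_cast Finset.card_le_card fun n hn => by
    rw [Finset.mem_filter, mem_IF] at hn ⊢
    exact ⟨hn.1, hPQ n hn.1.1 hn.2⟩

open Classical in
theorem prod_dvd_iff (A : Finset (Pr K)) (n : Ideal (𝓞 K)) :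
    (∏ v ∈ A, v.asIdeal) ∣ n ↔ ∀ v ∈ A, v.asIdeal ∣ n := by
  constructor
  · exact fun h v hv => (Finset.dvd_prod_of_mem _ hv).trans h
  · intro h
    have h2 : ∏ v ∈ A, v.asIdeal = ∏ I ∈ A.image (fun v : Pr K => v.asIdeal), I := by
      rw [Finset.prod_image]
      intro u _ v _ huv
      exact HeightOneSpectrum.ext huv
    rw [h2]
    refine Finset.prod_primes_dvd _ ?_ ?_
    · intro I hI
      obtain ⟨v, _, rfl⟩ := Finset.mem_image.1 hI
      exact v.prime
    · intro I hI
      obtain ⟨v, hv, rfl⟩ := Finset.mem_image.1 hI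
      exact h v hv

theorem prod_ne (A : Finset (Pr K)) : (∏ v ∈ A, v.asIdeal) ≠ ⊥ :=
  Finset.prod_ne_zero_iff.2 fun v _ => v.ne_bot

theorem absNorm_prod' (A : Finset (Pr K)) :
    (Ideal.absNorm (∏ v ∈ A, v.asIdeal) : ℝ) = nn A := by
  rw [map_prod, Nat.cast_prod]
  rfl

/-- the ideals divisible by all primes of `A` -/
theorem hasDens_all (A : Finset (Pr K)) :
    HasDens K (fun n => ∀ v ∈ A, v.asIdeal ∣ n) (nn A)⁻¹ := by
  rw [← absNorm_prod']
  exact (hasDens_dvd (prod_ne A)).congr fun n _ => prod_dvd_iff A n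

/-- the ideals divisible by all primes of `A` and by none of `B` -/
theorem hasDens_pattern (B : Finset (Pr K)) : ∀ A : Finset (Pr K),
    ∃ δ : ℝ, HasDens K (fun n => (∀ v ∈ A, v.asIdeal ∣ n) ∧ ∀ v ∈ B, ¬ v.asIdeal ∣ n) δ := by
  classical
  induction B using Finset.induction_on with
  | empty =>
    intro A
    exact ⟨_, (hasDens_all A).congr fun n _ => by simp⟩
  | insert w B _ ih =>
    intro A
    obtain ⟨a, ha⟩ := ih A
    obtain ⟨b, hb⟩ := ih (insert w A)
    refine ⟨a - b, (ha.sub hb ?_).congr fun n _ => ?_⟩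
    · rintro n ⟨h1, h2⟩
      exact ⟨fun v hv => h1 v (Finset.mem_insert_of_mem hv), h2⟩
    · constructor
      · rintro ⟨⟨h1, h2⟩, h3⟩
        refine ⟨h1, fun v hv => ?_⟩
        rcases Finset.mem_insert.1 hv with rfl | hv
        · intro hd
          apply h3
          refine ⟨fun u hu => ?_, h2⟩
          rcases Finset.mem_insert.1 hu with rfl | hu
          · exact hd
          · exact h1 u hu
        · exact h2 v hv
      · rintro ⟨h1, h2⟩
        refine ⟨⟨h1, fun v hv => h2 v (Finset.mem_insert_of_mem hv)⟩, fun h3 => ?_⟩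
        exact h2 w (Finset.mem_insert_self _ _) (h3.1 w (Finset.mem_insert_self _ _))

open Classical in
/-- the prime factors in a finite set `V` -/
noncomputable def facs (V : Finset (Pr K)) (n : Ideal (𝓞 K)) : Finset (Pr K) :=
  V.filter fun v => v.asIdeal ∣ n

/-- a property depending only on the prime factors in a finite set has a density -/
theorem hasDens_facs (V : Finset (Pr K)) (Q : Finset (Pr K) → Prop) :
    ∃ δ : ℝ, HasDens K (fun n => Q (facs V n)) δ := by
  classical
  choose a ha using fun A : Finset (Pr K) => hasDens_pattern (K := K) (V \ A) A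
  refine ⟨_, (HasDens.finset (V.powerset.filter Q) (fun A n => (∀ v ∈ A, v.asIdeal ∣ n) ∧
    ∀ v ∈ V \ A, ¬ v.asIdeal ∣ n) a (fun A _ => ha A) ?_).congr fun n _ => ?_⟩
  · intro A hA B hB n hAn hBn
    have key : ∀ A ∈ V.powerset, ((∀ v ∈ A, v.asIdeal ∣ n) ∧ ∀ v ∈ V \ A, ¬ v.asIdeal ∣ n) →
        A = facs V n := by
      intro A hA h
      ext v
      unfold facs
      rw [Finset.mem_filter]
      constructor
      · exact fun hv => ⟨Finset.mem_powerset.1 hA hv, h.1 v hv⟩
      · rintro ⟨hv, hd⟩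
        by_contra hcon
        exact h.2 v (Finset.mem_sdiff.2 ⟨hv, hcon⟩) hd
    rw [key A (Finset.mem_filter.1 hA).1 hAn, key B (Finset.mem_filter.1 hB).1 hBn]
  · constructor
    · rintro ⟨A, hA, h1, h2⟩
      rw [Finset.mem_filter, Finset.mem_powerset] at hA
      have : A = facs V n := by
        ext v
        unfold facs
        rw [Finset.mem_filter]
        constructor
        · exact fun hv => ⟨hA.1 hv, h1 v hv⟩
        · rintro ⟨hv, hd⟩
          by_contra hcon
          exact h2 v (Finset.mem_sdiff.2 ⟨hv, hcon⟩) hd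
      rw [← this]
      exact hA.2
    · intro h
      refine ⟨facs V n, Finset.mem_filter.2 ⟨Finset.mem_powerset.2 (Finset.filter_subset _ _), h⟩,
        fun v hv => (Finset.mem_filter.1 hv).2, fun v hv hd => ?_⟩
      rw [Finset.mem_sdiff] at hv
      exact hv.2 (Finset.mem_filter.2 ⟨hv.1, hd⟩)

end Run7.h283.UE
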