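import Pool.Agent.Run7.h283.UE.Dens

/-!
# The limit law of a family of finite sets of primes dividing a random ideal
-/

set_option autoImplicit false

namespace Run7.h283.UE

open NumberField IsDedekindDomain Finset Filter Topology Pool.Agent.H691R3 Pool.Agent.TH876.Loc
open Run7.h283.MK

variable {K : Type} [Field K] [NumberField K] {ι : Type} (S : ι → Finset (Pr K))

/-- the indices all of whose primes divide `n` -/
def U (n : Ideal (𝓞 K)) : Set ι := {i | ∀ v ∈ S i, v.asIdeal ∣ n}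

variable {S}

theorem nn_le_of_mem {n : Ideal (𝓞 K)} (hn : n ≠ ⊥) {i : ι} (hi : i ∈ U S n) :
    nn (S i) ≤ (Ideal.absNorm n : ℝ) := by
  obtain ⟨J, hJ⟩ := (prod_dvd_iff (S i) n).2 hi
  have hJ0 : J ≠ ⊥ := by
    rintro rfl
    exact hn (by rw [hJ, Ideal.mul_bot])
  rw [hJ, map_mul, Nat.cast_mul, absNorm_prod']
  exact le_mul_of_one_le_right (nn_pos _).le (one_le_absNorm hJ0)

theorem fin_le (hS : Summable fun i => (nn (S i))⁻¹) (X : ℝ) : {i | nn (S i) ≤ X}.Finite := by
  have h1 : ∀ᶠ i in cofinite, (nn (S i))⁻¹ < (max X 1)⁻¹ :=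
    hS.tendsto_cofinite_zero.eventually (gt_mem_nhds (by positivity))
  rw [Filter.eventually_cofinite] at h1
  refine h1.subset fun i hi => ?_
  have hi' : nn (S i) ≤ X := hi
  show ¬ _
  rw [not_lt]
  exact inv_anti₀ (nn_pos _) (hi'.trans (le_max_left _ _))

theorem U_finite (hS : Summable fun i => (nn (S i))⁻¹) {n : Ideal (𝓞 K)} (hn : n ≠ ⊥) :
    (U S n).Finite :=
  (fin_le hS (Ideal.absNorm n : ℝ)).subset fun _ hi => nn_le_of_mem hn hi

theorem tail_small (hS : Summable fun i => (nn (S i))⁻¹) {ε : ℝ} (hε : 0 < ε) :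
    ∃ Z : ℝ, 1 ≤ Z ∧ ∀ t : Finset ι, (∀ i ∈ t, Z < nn (S i)) →
      ∑ i ∈ t, (nn (S i))⁻¹ ≤ ε := by
  classical
  obtain ⟨s, hs⟩ := (summable_iff_vanishing_norm.1 hS) ε hε
  refine ⟨1 + ∑ i ∈ s, nn (S i), ?_, fun t ht => ?_⟩
  · have : 0 ≤ ∑ i ∈ s, nn (S i) := Finset.sum_nonneg fun i _ => (nn_pos _).le
    linarith
  · have hd : Disjoint t s := by
      rw [Finset.disjoint_left]
      intro i hi his
      have h1 := ht i hi
      have h2 : nn (S i) ≤ ∑ i ∈ s, nn (S i) :=
        Finset.single_le_sum (f := fun i => nn (S i)) (fun i _ => (nn_pos _).le) his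
      linarith
    have h3 := hs t hd
    exact (le_abs_self _).trans h3.le

open Classical in
variable (K) in
/-- the ideals with a large member are few -/
theorem bad_card : ∃ C : ℝ, 0 < C ∧ ∀ {ι : Type} (S : ι → Finset (Pr K)),
    (Summable fun i => (nn (S i))⁻¹) → ∀ Z ε : ℝ,
    (∀ t : Finset ι, (∀ i ∈ t, Z < nn (S i)) → ∑ i ∈ t, (nn (S i))⁻¹ ≤ ε) → ∀ N : ℝ, 0 ≤ N →
    (((IF K N).filter fun n => ∃ i ∈ U S n, Z < nn (S i)).card : ℝ) ≤ C * ε * N := by
  obtain ⟨C, hC, hle⟩ := cnt_le K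
  refine ⟨C, hC, ?_⟩
  intro ι S hS Z ε hZ N hN
  obtain ⟨t, ht⟩ : ∃ t : Finset ι, t = (fin_le hS N).toFinset.filter fun i => Z < nn (S i) :=
    ⟨_, rfl⟩
  have hsub : ((IF K N).filter fun n => ∃ i ∈ U S n, Z < nn (S i)) ⊆
      t.biUnion fun i => (IF K N).filter fun n => (∏ v ∈ S i, v.asIdeal) ∣ n := by
    intro n hn
    obtain ⟨h1, i, hi, hiZ⟩ := Finset.mem_filter.1 hn
    have h2 := mem_IF.1 h1
    rw [Finset.mem_biUnion]
    refine ⟨i, ?_, Finset.mem_filter.2 ⟨h1, (prod_dvd_iff _ _).2 hi⟩⟩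
    rw [ht, Finset.mem_filter, Set.Finite.mem_toFinset]
    exact ⟨(nn_le_of_mem h2.1 hi).trans h2.2, hiZ⟩
  have h1 := (Finset.card_le_card hsub).trans Finset.card_biUnion_le
  have h2 : (((IF K N).filter fun n => ∃ i ∈ U S n, Z < nn (S i)).card : ℝ) ≤
      ∑ i ∈ t, (((IF K N).filter fun n => (∏ v ∈ S i, v.asIdeal) ∣ n).card : ℝ) := by
    exact_mod_cast h1
  refine h2.trans ?_
  have h3 : ∀ i ∈ t, (((IF K N).filter fun n => (∏ v ∈ S i, v.asIdeal) ∣ n).card : ℝ) ≤
      C * N * (nn (S i))⁻¹ := by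
    intro i _
    rw [card_dvd K (prod_ne _), absNorm_prod']
    refine (hle _ (div_nonneg hN (nn_pos _).le)).trans (le_of_eq ?_)
    rw [div_eq_mul_inv]
    ring
  refine (Finset.sum_le_sum h3).trans ?_
  rw [← Finset.mul_sum]
  have h4 := hZ t fun i hi => by
    rw [ht, Finset.mem_filter] at hi
    exact hi.2
  calc C * N * ∑ i ∈ t, (nn (S i))⁻¹ ≤ C * N * ε := mul_le_mul_of_nonneg_left h4 (by positivity)
    _ = C * ε * N := by ring

open Classical in
variable (K) in
theorem bad_dens : ∃ C : ℝ, 0 < C ∧ ∀ {ι : Type} (S : ι → Finset (Pr K)),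
    (Summable fun i => (nn (S i))⁻¹) → ∀ Z ε : ℝ,
    (∀ t : Finset ι, (∀ i ∈ t, Z < nn (S i)) → ∑ i ∈ t, (nn (S i))⁻¹ ≤ ε) → ∀ N : ℝ, 1 ≤ N →
    (((IF K N).filter fun n => ∃ i ∈ U S n, Z < nn (S i)).card : ℝ) / cnt K N ≤ C * ε := by
  obtain ⟨C, hC, h1⟩ := bad_card K
  obtain ⟨c, hc, h2⟩ := cnt_ge K
  refine ⟨C / c, by positivity, ?_⟩
  intro ι S hS Z ε hZ N hN
  have hN0 : 0 < N := by linarith
  have h3 := h1 S hS Z ε hZ N hN0.le
  have h4 := h2 N hN
  have hcn : 0 < cnt K N := lt_of_lt_of_le (by positivity) h4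
  have hε : 0 ≤ ε := by
    have := hZ ∅ (fun i hi => absurd hi (Finset.notMem_empty i))
    simpa using this
  rw [div_le_iff₀ hcn]
  calc _ ≤ C * ε * N := h3
    _ = C / c * ε * (c * N) := by field_simp
    _ ≤ C / c * ε * cnt K N := mul_le_mul_of_nonneg_left h4 (by positivity)

variable (S)

/-- the members of size at most `Z` -/
def UZ (Z : ℝ) (n : Ideal (𝓞 K)) : Set ι := {i | i ∈ U S n ∧ nn (S i) ≤ Z}

variable {S}

open Classical in
/-- all primes of the members of size at most `Z` -/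
noncomputable def VZ (hS : Summable fun i => (nn (S i))⁻¹) (Z : ℝ) : Finset (Pr K) :=
  (fin_le hS Z).toFinset.biUnion S

theorem UZ_eq (hS : Summable fun i => (nn (S i))⁻¹) (Z : ℝ) (n : Ideal (𝓞 K)) :
    UZ S Z n = {i | nn (S i) ≤ Z ∧ S i ⊆ facs (VZ hS Z) n} := by
  classical
  ext i
  constructor
  · rintro ⟨h1, h2⟩
    refine ⟨h2, fun v hv => ?_⟩
    unfold facs VZ
    rw [Finset.mem_filter, Finset.mem_biUnion]
    refine ⟨⟨i, ?_, hv⟩, h1 v hv⟩
    rw [Set.Finite.mem_toFinset]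
    exact h2
  · rintro ⟨h1, h2⟩
    refine ⟨fun v hv => ?_, h1⟩
    have := h2 hv
    unfold facs at this
    exact (Finset.mem_filter.1 this).2

theorem UZ_dens (hS : Summable fun i => (nn (S i))⁻¹) (Z : ℝ) (Φ : Set (Set ι)) :
    ∃ δ : ℝ, HasDens K (fun n => UZ S Z n ∈ Φ) δ := by
  obtain ⟨δ, h⟩ := hasDens_facs (VZ hS Z) fun A => {i | nn (S i) ≤ Z ∧ S i ⊆ A} ∈ Φ
  exact ⟨δ, h.congr fun n _ => by rw [UZ_eq hS]⟩

theorem U_eq_UZ {Z : ℝ} {n : Ideal (𝓞 K)} (h : ¬ ∃ i ∈ U S n, Z < nn (S i)) :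
    U S n = UZ S Z n := by
  ext i
  constructor
  · intro hi
    refine ⟨hi, ?_⟩
    by_contra hcon
    exact h ⟨i, hi, not_le.1 hcon⟩
  · exact fun hi => hi.1

/-- **every property of the set of members has a density** -/
theorem exists_dens (hS : Summable fun i => (nn (S i))⁻¹) (Φ : Set (Set ι)) :
    ∃ δ : ℝ, HasDens K (fun n => U S n ∈ Φ) δ := by
  classical
  obtain ⟨C, hC, hbad⟩ := bad_dens K
  obtain ⟨u, hu⟩ : ∃ u : ℝ → ℝ, u = fun N : ℝ =>
    (((IF K N).filter fun n => U S n ∈ Φ).card : ℝ) / cnt K N := ⟨_, rfl⟩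
  have hcau : CauchySeq u := by
    rw [Metric.cauchySeq_iff']
    intro ε hε
    obtain ⟨Z, hZ1, hZ⟩ := tail_small hS (ε := ε / (8 * C)) (by positivity)
    obtain ⟨δ, hδ⟩ := UZ_dens hS Z Φ
    have hclose : ∀ N : ℝ, 1 ≤ N →
        |u N - (((IF K N).filter fun n => UZ S Z n ∈ Φ).card : ℝ) / cnt K N| ≤ ε / 8 := by
      intro N hN
      have hcn : 0 < cnt K N := by linarith [one_le_cnt K hN]
      have h1 := hbad S hS Z _ hZ N hN
      have h2 : C * (ε / (8 * C)) = ε / 8 := by field_simp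
      rw [h2] at h1
      refine le_trans ?_ h1
      rw [hu, ← sub_div, abs_div, abs_of_pos hcn]
      refine div_le_div_of_nonneg_right ?_ hcn.le
      have e1 : ((IF K N).filter fun n => U S n ∈ Φ).card ≤
          ((IF K N).filter fun n => UZ S Z n ∈ Φ).card +
            ((IF K N).filter fun n => ∃ i ∈ U S n, Z < nn (S i)).card := by
        refine (Finset.card_le_card ?_).trans (Finset.card_union_le _ _)
        intro n hn
        rw [Finset.mem_filter] at hn
        rw [Finset.mem_union, Finset.mem_filter, Finset.mem_filter]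
        by_cases h : ∃ i ∈ U S n, Z < nn (S i)
        · exact Or.inr ⟨hn.1, h⟩
        · refine Or.inl ⟨hn.1, ?_⟩
          rw [← U_eq_UZ h]
          exact hn.2
      have e2 : ((IF K N).filter fun n => UZ S Z n ∈ Φ).card ≤
          ((IF K N).filter fun n => U S n ∈ Φ).card +
            ((IF K N).filter fun n => ∃ i ∈ U S n, Z < nn (S i)).card := by
        refine (Finset.card_le_card ?_).trans (Finset.card_union_le _ _)
        intro n hn
        rw [Finset.mem_filter] at hn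
        rw [Finset.mem_union, Finset.mem_filter, Finset.mem_filter]
        by_cases h : ∃ i ∈ U S n, Z < nn (S i)
        · exact Or.inr ⟨hn.1, h⟩
        · refine Or.inl ⟨hn.1, ?_⟩
          rw [U_eq_UZ h]
          exact hn.2
      have e1' : (((IF K N).filter fun n => U S n ∈ Φ).card : ℝ) ≤
          ((IF K N).filter fun n => UZ S Z n ∈ Φ).card +
            ((IF K N).filter fun n => ∃ i ∈ U S n, Z < nn (S i)).card := by exact_mod_cast e1
      have e2' : (((IF K N).filter fun n => UZ S Z n ∈ Φ).card : ℝ) ≤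
          ((IF K N).filter fun n => U S n ∈ Φ).card +
            ((IF K N).filter fun n => ∃ i ∈ U S n, Z < nn (S i)).card := by exact_mod_cast e2
      rw [abs_le]
      constructor <;> linarith
    have h5 : ∀ᶠ N : ℝ in atTop,
        |(((IF K N).filter fun n => UZ S Z n ∈ Φ).card : ℝ) / cnt K N - δ| < ε / 8 := by
      have := hδ.eventually (Metric.ball_mem_nhds δ (show 0 < ε / 8 by positivity))
      filter_upwards [this] with N hN
      rw [← Real.dist_eq]
      exact hN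
    obtain ⟨N0, hN0⟩ := (h5.and (eventually_ge_atTop 1)).exists_forall_of_atTop
    refine ⟨N0, fun N hN => ?_⟩
    obtain ⟨a1, a2⟩ := hN0 N hN
    obtain ⟨b1, b2⟩ := hN0 N0 le_rfl
    have c1 := hclose N a2
    have c2 := hclose N0 b2
    rw [Real.dist_eq]
    rw [abs_lt] at a1 b1 ⊢
    rw [abs_le] at c1 c2
    constructor <;> linarith [c1.1, c1.2, c2.1, c2.2, a1.1, a1.2, b1.1, b1.2]
  obtain ⟨δ, hδ⟩ := cauchySeq_tendsto_of_complete hcau
  refine ⟨δ, ?_⟩
  rw [hu] at hδ
  exact hδ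

open Classical in
/-- **the limit law** -/
theorem law (hS : Summable fun i => (nn (S i))⁻¹) :
    ∃ d : Finset ι → ℝ, (∀ F : Finset ι, HasDens K (fun n => U S n = (F : Set ι)) (d F)) ∧
      ∀ Φ : Set (Set ι), ∃ δ : ℝ, HasDens K (fun n => U S n ∈ Φ) δ ∧
        HasSum (fun F : Finset ι => if (F : Set ι) ∈ Φ then d F else 0) δ := by
  obtain ⟨C, hC, hbad⟩ := bad_dens K
  choose d hd using fun F : Finset ι => exists_dens hS {A : Set ι | A = (F : Set ι)}
  have hd' : ∀ F : Finset ι, HasDens K (fun n => U S n = (F : Set ι)) (d F) := hd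
  refine ⟨d, hd', fun Φ => ?_⟩
  obtain ⟨δ, hδ⟩ := exists_dens hS Φ
  refine ⟨δ, hδ, ?_⟩
  have hfin : ∀ s : Finset (Finset ι), HasDens K (fun n => ∃ F ∈ s.filter fun F : Finset ι =>
      (F : Set ι) ∈ Φ, U S n = (F : Set ι))
      (∑ F ∈ s, if (F : Set ι) ∈ Φ then d F else 0) := by
    intro s
    rw [← Finset.sum_filter]
    refine HasDens.finset _ _ d (fun F _ => hd' F) ?_
    intro F _ G _ n h1 h2
    exact Finset.coe_injective (h1.symm.trans h2)
  refine hasSum_of_isLUB_of_nonneg _ (fun F => ?_) ⟨?_, ?_⟩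
  · split_ifs
    · exact (hd' F).nonneg
    · exact le_rfl
  · rintro _ ⟨s, rfl⟩
    refine (hfin s).mono hδ ?_
    rintro n _ ⟨F, hF, h⟩
    show U S n ∈ Φ
    rw [h]
    exact (Finset.mem_filter.1 hF).2
  · intro b hb
    refine le_of_forall_pos_le_add fun ε hε => ?_
    obtain ⟨Z, hZ1, hZ⟩ := tail_small hS (ε := ε / C) (by positivity)
    obtain ⟨s, hs⟩ : ∃ s : Finset (Finset ι), s = (VZ hS Z).powerset.image fun A =>
      (fin_le hS Z).toFinset.filter fun i => S i ⊆ A := ⟨_, rfl⟩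
    have h1 : ∑ F ∈ s, (if (F : Set ι) ∈ Φ then d F else 0) ≤ b := hb ⟨s, rfl⟩
    have h2 := hδ.sub (hfin s) (by
      rintro n ⟨F, hF, h⟩
      show U S n ∈ Φ
      rw [h]
      exact (Finset.mem_filter.1 hF).2)
    have h3 : δ - ∑ F ∈ s, (if (F : Set ι) ∈ Φ then d F else 0) ≤ ε := by
      refine le_of_tendsto h2 ?_
      filter_upwards [eventually_ge_atTop 1] with N hN
      have h4 := hbad S hS Z _ hZ N hN
      have h5 : C * (ε / C) = ε := by field_simp
      rw [h5] at h4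
      refine le_trans ?_ h4
      refine div_le_div_of_nonneg_right ?_ (cnt_nonneg K N)
      refine Nat.cast_le.2 (Finset.card_le_card fun n hn => ?_)
      simp only [Finset.mem_filter] at hn ⊢
      refine ⟨hn.1, ?_⟩
      by_contra hcon
      apply hn.2.2
      have h6 := U_eq_UZ hcon
      refine ⟨(fin_le hS Z).toFinset.filter fun i => S i ⊆ facs (VZ hS Z) n, ?_, ?_⟩
      · constructor
        · rw [hs, Finset.mem_image]
          exact ⟨facs (VZ hS Z) n, Finset.mem_powerset.2 (Finset.filter_subset _ _), rfl⟩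
        · have h7 : (((fin_le hS Z).toFinset.filter fun i => S i ⊆ facs (VZ hS Z) n : Finset ι) :
              Set ι) = U S n := by
            rw [h6, UZ_eq hS]
            ext i
            simp
          rw [h7]
          exact hn.2.1
      · rw [h6, UZ_eq hS]
        ext i
        simp
    linarith

/-- **the mean number of members** -/
theorem mean (hS : Summable fun i => (nn (S i))⁻¹) :
    Tendsto (fun N : ℝ => (∑ n ∈ IF K N, ((U S n).ncard : ℝ)) / cnt K N) atTop
      (𝓝 (∑' i, (nn (S i))⁻¹)) := by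
  classical
  obtain ⟨C, hC, hle⟩ := cnt_le K
  obtain ⟨c, hc, hge⟩ := cnt_ge K
  have hsum : ∀ N : ℝ, ∑ n ∈ IF K N, ((U S n).ncard : ℝ) = ∑' i, cnt K (N / nn (S i)) := by
    intro N
    obtain ⟨t, ht⟩ : ∃ t : Finset ι, t = (fin_le hS N).toFinset := ⟨_, rfl⟩
    have h1 : ∀ n ∈ IF K N, ((U S n).ncard : ℝ) =
        ∑ i ∈ t, if (∏ v ∈ S i, v.asIdeal) ∣ n then (1 : ℝ) else 0 := by
      intro n hn
      have hn' := mem_IF.1 hn
      rw [← Finset.sum_filter, Finset.sum_const, nsmul_eq_mul, mul_one, Nat.cast_inj,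
        ← Set.ncard_coe_finset]
      congr 1
      ext i
      rw [Finset.coe_filter]
      constructor
      · intro hi
        refine ⟨?_, (prod_dvd_iff _ _).2 hi⟩
        rw [ht, Set.Finite.mem_toFinset]
        exact (nn_le_of_mem hn'.1 hi).trans hn'.2
      · exact fun hi => (prod_dvd_iff _ _).1 hi.2
    rw [Finset.sum_congr rfl h1, Finset.sum_comm]
    have h2 : ∀ i, (∑ n ∈ IF K N, if (∏ v ∈ S i, v.asIdeal) ∣ n then (1 : ℝ) else 0) =
        cnt K (N / nn (S i)) := by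
      intro i
      rw [← Finset.sum_filter, Finset.sum_const, nsmul_eq_mul, mul_one, card_dvd K (prod_ne _),
        absNorm_prod']
    rw [Finset.sum_congr rfl fun i _ => h2 i]
    rw [tsum_eq_sum]
    intro i hi
    rw [ht, Set.Finite.mem_toFinset] at hi
    have hi' : N < nn (S i) := not_le.1 hi
    refine cnt_zero K ?_
    rw [div_lt_one (nn_pos _)]
    exact hi'
  have h2 : Tendsto (fun N : ℝ => ∑' i, cnt K (N / nn (S i)) / cnt K N) atTop
      (𝓝 (∑' i, (nn (S i))⁻¹)) := by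
    refine tendsto_tsum_of_dominated_convergence (bound := fun i => C / c * (nn (S i))⁻¹)
      (hS.mul_left _) (fun i => ?_) ?_
    · exact tendsto_cnt_div (K := K) (nn_pos (S i))
    · filter_upwards [eventually_ge_atTop 1] with N hN
      intro i
      have hN0 : 0 < N := by linarith
      have h4 := hge N hN
      have hcn : 0 < cnt K N := lt_of_lt_of_le (by positivity) h4
      rw [Real.norm_of_nonneg (div_nonneg (cnt_nonneg K _) hcn.le), div_le_iff₀ hcn]
      have hpos := nn_pos (S i)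
      calc cnt K (N / nn (S i)) ≤ C * (N / nn (S i)) := hle _ (by positivity)
        _ = C / c * (nn (S i))⁻¹ * (c * N) := by field_simp
        _ ≤ C / c * (nn (S i))⁻¹ * cnt K N := mul_le_mul_of_nonneg_left h4 (by positivity)
  refine h2.congr fun N => ?_
  rw [hsum N, tsum_div_const]

open Classical in
/-- **the mean of the limit law** -/
theorem law_mean (hS : Summable fun i => (nn (S i))⁻¹) {d : Finset ι → ℝ}
    (hd : ∀ F : Finset ι, HasDens K (fun n => U S n = (F : Set ι)) (d F))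
    (hlaw : ∀ Φ : Set (Set ι), ∃ δ : ℝ, HasDens K (fun n => U S n ∈ Φ) δ ∧
        HasSum (fun F : Finset ι => if (F : Set ι) ∈ Φ then d F else 0) δ) :
    HasSum (fun F : Finset ι => (F.card : ℝ) * d F) (∑' i, (nn (S i))⁻¹) := by
  obtain ⟨f, hf⟩ : ∃ f : ι × Finset ι → ℝ, f = fun p => if p.1 ∈ p.2 then d p.2 else 0 :=
    ⟨_, rfl⟩
  have hf0 : 0 ≤ f := by
    intro p
    rw [hf]
    simp only [Pi.zero_apply]
    split_ifs
    · exact (hd p.2).nonneg
    · exact le_rfl
  have hi : ∀ i, HasSum (fun F => f (i, F)) (nn (S i))⁻¹ := by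
    intro i
    obtain ⟨δ, h1, h2⟩ := hlaw {A | i ∈ A}
    have h3 : δ = (nn (S i))⁻¹ := by
      refine h1.unique ((hasDens_all (S i)).congr fun n _ => ?_)
      rfl
    rw [← h3]
    convert h2 using 1
    funext F
    rw [hf]
    simp
  have hsumm : Summable f := by
    rw [summable_prod_of_nonneg hf0]
    refine ⟨fun i => (hi i).summable, ?_⟩
    refine hS.congr fun i => ?_
    exact (hi i).tsum_eq.symm
  have h1 : HasSum f (∑' i, (nn (S i))⁻¹) := by
    have h2 := hsumm.hasSum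
    have h3 := h2.prod_fiberwise hi
    rw [h3.tsum_eq]
    exact h2
  have h4 : HasSum (f ∘ (Equiv.prodComm (Finset ι) ι)) (∑' i, (nn (S i))⁻¹) :=
    (Equiv.hasSum_iff _).2 h1
  refine h4.prod_fiberwise fun F => ?_
  have h5 : ∀ i, i ∉ F → (f ∘ (Equiv.prodComm (Finset ι) ι)) (F, i) = 0 := by
    intro i hi
    rw [hf]
    simp [hi]
  have h6 : HasSum (fun i => (f ∘ (Equiv.prodComm (Finset ι) ι)) (F, i))
      (∑ i ∈ F, (f ∘ (Equiv.prodComm (Finset ι) ι)) (F, i)) := hasSum_sum_of_ne_finset_zero h5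
  have h7 : ∑ i ∈ F, (f ∘ (Equiv.prodComm (Finset ι) ι)) (F, i) = (F.card : ℝ) * d F := by
    rw [← nsmul_eq_mul, ← Finset.sum_const]
    refine Finset.sum_congr rfl fun i hi => ?_
    rw [hf]
    simp [hi]
  rw [← h7]
  exact h6

end Run7.h283.UE
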