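import Pool.Agent.Run7.h283.UE.Law

/-!
# Tails of convergent series, and members which are large compared with the ideal
-/

set_option autoImplicit false

namespace Run7.h283.UE

open NumberField IsDedekindDomain Finset Filter Topology Pool.Agent.H691R3 Pool.Agent.TH876.Loc
open Run7.h283.MK

/-- from a counting bound to the tail of the sum of reciprocals -/
theorem power_tail {ι : Type} (g : ι → ℝ) {D θ : ℝ} (hD : 0 < D)
    (hθ : θ < 1) (hcount : ∀ X : ℝ, 1 ≤ X → ∀ t : Finset ι, (∀ i ∈ t, g i ≤ X) →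
      (t.card : ℝ) ≤ D * X ^ θ) :
    ∃ C : ℝ, 0 < C ∧ ∀ Z : ℝ, 1 ≤ Z → ∀ t : Finset ι, (∀ i ∈ t, Z ≤ g i) →
      ∑ i ∈ t, (g i)⁻¹ ≤ C * Z ^ (θ - 1) := by
  classical
  obtain ⟨q, hq⟩ : ∃ q : ℝ, q = 2 ^ (θ - 1) := ⟨_, rfl⟩
  have hq0 : 0 < q := by rw [hq]; positivity
  have hq1 : q < 1 := by
    rw [hq]
    exact Real.rpow_lt_one_of_one_lt_of_neg (by norm_num) (by linarith)
  refine ⟨D * 2 ^ θ * (1 - q)⁻¹, by have : 0 < 1 - q := by linarith
                                    positivity, fun Z hZ t ht => ?_⟩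
  have hZ0 : 0 < Z := by linarith
  have hex : ∀ i, ∃ k : ℕ, i ∈ t → (2 : ℝ) ^ k * Z ≤ g i ∧ g i ≤ 2 ^ (k + 1) * Z := by
    intro i
    by_cases hi : i ∈ t
    · obtain ⟨k, h1, h2⟩ := exists_nat_pow_near (show (1 : ℝ) ≤ g i / Z by
        rw [one_le_div hZ0]; exact ht i hi) (by norm_num : (1 : ℝ) < 2)
      rw [le_div_iff₀ hZ0] at h1
      rw [div_lt_iff₀ hZ0] at h2
      exact ⟨k, fun _ => ⟨h1, h2.le⟩⟩
    · exact ⟨0, fun h => absurd h hi⟩
  choose κ hκ using hex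
  have h1 : ∀ k ∈ t.image κ, ∑ i ∈ t.filter fun i => κ i = k, (g i)⁻¹ ≤
      D * 2 ^ θ * Z ^ (θ - 1) * q ^ k := by
    intro k _
    have h2k : (1 : ℝ) ≤ 2 ^ k := one_le_pow₀ (by norm_num)
    have h2k1 : (1 : ℝ) ≤ 2 ^ (k + 1) := one_le_pow₀ (by norm_num)
    have hc := hcount (2 ^ (k + 1) * Z) (one_le_mul_of_one_le_of_one_le h2k1 hZ)
      (t.filter fun i => κ i = k) (fun i hi => by
        obtain ⟨a1, a2⟩ := Finset.mem_filter.1 hi
        rw [← a2]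
        exact (hκ i a1).2)
    have h3 : ∀ i ∈ t.filter fun i => κ i = k, (g i)⁻¹ ≤ ((2 : ℝ) ^ k * Z)⁻¹ := by
      intro i hi
      obtain ⟨a1, a2⟩ := Finset.mem_filter.1 hi
      refine inv_anti₀ (by positivity) ?_
      rw [← a2]
      exact (hκ i a1).1
    refine (Finset.sum_le_sum h3).trans ?_
    rw [Finset.sum_const, nsmul_eq_mul]
    refine (mul_le_mul_of_nonneg_right hc (by positivity)).trans (le_of_eq ?_)
    have e1 : ((2 : ℝ) ^ (k + 1) * Z) ^ θ = 2 ^ θ * ((2 : ℝ) ^ k * Z) ^ θ := by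
      rw [pow_succ, mul_comm ((2 : ℝ) ^ k) 2, mul_assoc, Real.mul_rpow (by norm_num)
        (by positivity)]
    have e2 : ((2 : ℝ) ^ k * Z) ^ θ * ((2 : ℝ) ^ k * Z)⁻¹ = ((2 : ℝ) ^ k * Z) ^ (θ - 1) := by
      rw [Real.rpow_sub (by positivity), Real.rpow_one, div_eq_mul_inv]
    have e3 : ((2 : ℝ) ^ k * Z) ^ (θ - 1) = q ^ k * Z ^ (θ - 1) := by
      rw [Real.mul_rpow (by positivity) hZ0.le, hq, ← Real.rpow_natCast, ← Real.rpow_natCast,
        ← Real.rpow_mul (by norm_num), ← Real.rpow_mul (by norm_num), mul_comm (k : ℝ)]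
    calc D * ((2 : ℝ) ^ (k + 1) * Z) ^ θ * ((2 : ℝ) ^ k * Z)⁻¹ =
        D * 2 ^ θ * (((2 : ℝ) ^ k * Z) ^ θ * ((2 : ℝ) ^ k * Z)⁻¹) := by rw [e1]; ring
      _ = _ := by rw [e2, e3]; ring
  have h2 : ∑ i ∈ t, (g i)⁻¹ = ∑ k ∈ t.image κ, ∑ i ∈ t.filter fun i => κ i = k, (g i)⁻¹ :=
    (Finset.sum_fiberwise_of_maps_to (fun i hi => Finset.mem_image_of_mem κ hi) _).symm
  rw [h2]
  refine (Finset.sum_le_sum h1).trans ?_
  rw [← Finset.mul_sum]
  have h3 : ∑ k ∈ t.image κ, q ^ k ≤ (1 - q)⁻¹ := by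
    rw [← tsum_geometric_of_lt_one hq0.le hq1]
    exact (summable_geometric_of_lt_one hq0.le hq1).sum_le_tsum _ fun k _ => by positivity
  calc D * 2 ^ θ * Z ^ (θ - 1) * ∑ k ∈ t.image κ, q ^ k ≤
      D * 2 ^ θ * Z ^ (θ - 1) * (1 - q)⁻¹ := mul_le_mul_of_nonneg_left h3 (by positivity)
    _ = _ := by ring

/-- the series of the reciprocals converges -/
theorem summable_of_count {ι : Type} (g : ι → ℝ) (hg : ∀ i, 1 ≤ g i) {D θ : ℝ} (hD : 0 < D)
    (hθ : θ < 1) (hcount : ∀ X : ℝ, 1 ≤ X → ∀ t : Finset ι, (∀ i ∈ t, g i ≤ X) →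
      (t.card : ℝ) ≤ D * X ^ θ) : Summable fun i => (g i)⁻¹ := by
  obtain ⟨C, hC, h⟩ := power_tail g hD hθ hcount
  refine summable_of_sum_le (c := C) (fun i => inv_nonneg.2 (by linarith [hg i])) fun t => ?_
  have h1 := h 1 le_rfl t fun i _ => hg i
  rwa [Real.one_rpow, mul_one] at h1

variable {K : Type} [Field K] [NumberField K] {ι : Type} {S : ι → Finset (Pr K)}

theorem cnt_atTop : Tendsto (fun N : ℝ => cnt K N) atTop atTop := by
  obtain ⟨c, hc, h⟩ := cnt_ge K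
  refine tendsto_atTop_mono' atTop ?_ (tendsto_id.const_mul_atTop hc)
  filter_upwards [eventually_ge_atTop 1] with N hN
  exact h N hN

/-- **members with a large value of a function are rare** -/
theorem far (hS : Summable fun i => (nn (S i))⁻¹) (g : ι → ℝ) {ψ : ℝ → ℝ}
    (hψ : Tendsto ψ atTop atTop) :
    HasDens K (fun n => ∃ i ∈ U S n, ψ (Ideal.absNorm n : ℝ) < g i) 0 := by
  classical
  obtain ⟨C, hC, hbad⟩ := bad_dens K
  unfold HasDens
  rw [Metric.tendsto_atTop]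
  intro ε hε
  obtain ⟨Z, hZ1, hZ⟩ := tail_small hS (ε := ε / (4 * C)) (by positivity)
  obtain ⟨H, hH⟩ : ∃ H : ℝ, ∀ i, nn (S i) ≤ Z → g i ≤ H := by
    obtain ⟨H, hH⟩ := ((fin_le hS Z).image g).bddAbove
    exact ⟨H, fun i hi => hH ⟨i, hi, rfl⟩⟩
  obtain ⟨y0, hy0⟩ := (hψ.eventually (eventually_ge_atTop H)).exists_forall_of_atTop
  have h1 : ∀ᶠ N : ℝ in atTop, cnt K y0 / cnt K N < ε / 4 := by
    have h2 : Tendsto (fun N : ℝ => cnt K y0 / cnt K N) atTop (𝓝 0) :=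
      tendsto_const_nhds.div_atTop cnt_atTop
    exact h2.eventually (gt_mem_nhds (by positivity))
  obtain ⟨N0, hN0⟩ := (h1.and (eventually_ge_atTop 1)).exists_forall_of_atTop
  refine ⟨N0, fun N hN => ?_⟩
  obtain ⟨a1, a2⟩ := hN0 N hN
  have hcn : 0 < cnt K N := by linarith [one_le_cnt K a2]
  have h3 := hbad S hS Z _ hZ N a2
  have h4 : C * (ε / (4 * C)) = ε / 4 := by field_simp
  rw [h4] at h3
  rw [Real.dist_eq, sub_zero, abs_of_nonneg (div_nonneg (Nat.cast_nonneg _) hcn.le)]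
  have h5 : ((IF K N).filter fun n => ∃ i ∈ U S n, ψ (Ideal.absNorm n : ℝ) < g i).card ≤
      ((IF K N).filter fun n => ∃ i ∈ U S n, Z < nn (S i)).card + (IF K y0).card := by
    refine (Finset.card_le_card ?_).trans (Finset.card_union_le _ _)
    intro n hn
    rw [Finset.mem_filter] at hn
    rw [Finset.mem_union, Finset.mem_filter]
    by_cases h : (Ideal.absNorm n : ℝ) ≤ y0
    · exact Or.inr (mem_IF.2 ⟨(mem_IF.1 hn.1).1, h⟩)
    · left
      refine ⟨hn.1, ?_⟩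
      obtain ⟨i, hi, hlt⟩ := hn.2
      refine ⟨i, hi, ?_⟩
      by_contra hcon
      have h6 := hH i (not_lt.1 hcon)
      have h7 := hy0 _ (not_le.1 h).le
      linarith
  have h6 : (((IF K N).filter fun n => ∃ i ∈ U S n, ψ (Ideal.absNorm n : ℝ) < g i).card : ℝ) ≤
      ((IF K N).filter fun n => ∃ i ∈ U S n, Z < nn (S i)).card + cnt K y0 := by
    unfold cnt
    exact_mod_cast h5
  calc (((IF K N).filter fun n => ∃ i ∈ U S n, ψ (Ideal.absNorm n : ℝ) < g i).card : ℝ) /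
        cnt K N ≤ ((((IF K N).filter fun n => ∃ i ∈ U S n, Z < nn (S i)).card : ℝ) +
          cnt K y0) / cnt K N := div_le_div_of_nonneg_right h6 hcn.le
    _ = (((IF K N).filter fun n => ∃ i ∈ U S n, Z < nn (S i)).card : ℝ) / cnt K N +
          cnt K y0 / cnt K N := add_div _ _ _
    _ < ε := by linarith

end Run7.h283.UE
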